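import Pool.Agent.J4.H63.OP.Red
import Pool.Agent.J4.H63.OP.NP

/-!
# Open packing is NP-complete on cubic planar bipartite graphs

The definitions are in `Pool.Agent.J4.H63.OP.Defs` (open packings, cubic graphs),
`Pool.Agent.J4.H63.OP.NP` (the decision problem), `Pool.Agent.Z85.LMD.Defs` (planar graphs),
`Pool.Agent.H671R2.ZDefs` (adjacency matrices), `Pool.Agent.NPC.Defs` (bit strings, `NP`,
polynomial time) and `Pool.Agent.H673R2.HardOn` (hardness on a class of instances).

In a cubic graph with `n` vertices an open packing has at least `n / 3` vertices if and only if every
vertex has exactly one neighbour in it.  The reduction is from monotone one-in-three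
satisfiability.  A crossing gadget with `30` vertices transmits, in the two colour classes
independently, the choice of such a set along two crossing wires; a network of these gadgets
realises an arbitrary routing between vertices on the left boundary and vertices on the bottom
boundary of a grid, and the routing is chosen such that one colour class encodes the instance while
the other one always has a solution.
-/

namespace Pool.Agent.Results.MP_7e9d2b_lc.NPComplete

open Pool.Agent.NPC Pool.Agent.NPC.R671 Pool.Agent.H673R2 Pool.Agent.J4.H63.OP
open Pool.Agent.Z85.LMD (IsPlanar)

/-- The first component of the pair is the adjacency matrix of a cubic planar bipartite graph and the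
second one is a positive integer. -/
def CubicPlanarBipartiteInput (p : List (List Bool) × ℕ) : Prop :=
  1 ≤ p.2 ∧ ∃ (n : ℕ) (G : SimpleGraph (Fin n)), adjMatrix G = p.1 ∧ IsCubic G ∧ IsPlanar G ∧
    G.IsBipartite

/-- **Open packing, restricted to cubic planar bipartite graphs, is NP-complete.**  Open packing is
in `NP`, and every language in `NP` has a polynomial-time many-one reduction to open packing all of
whose values are cubic planar bipartite graphs (with positive integers `k`). -/
theorem result :
    InNPP OpenPacking ∧ NPHardOn CubicPlanarBipartiteInput OpenPacking := by
  refine ⟨inNPP_openPacking, ?_⟩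
  have hP : HardPr (fun φ : Pool.Agent.R544.N3 => φ ≠ []) Pool.Agent.R544.P13 :=
    Pool.Agent.NPC.H958NLT.hardPr_X13.trans Pool.Agent.R544.poly_toP13
      (fun φ _ => List.ne_nil_of_length_pos (by
        rw [Pool.Agent.R544.toP13_length]
        omega))
      fun _ hb => Pool.Agent.R544.toP13_correct hb
  refine npHardOn_of hP poly_inst ?_ ?_
  · intro φ hne
    have := vs_pos hne
    refine ⟨?_, _, redG φ, rfl, redG_cubic φ, redG_planar φ, redG_bip φ⟩
    show 1 ≤ ((vs φ).length + 2) / 3
    omega
  · intro φ hne
    rw [redG_iff φ]
    have := vs_pos hne
    constructor
    · rintro ⟨S, h1, h2⟩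
      refine ⟨?_, _, redG φ, rfl, S, h1, h2⟩
      show 1 ≤ ((vs φ).length + 2) / 3
      omega
    · rintro ⟨-, n, G, hG, h⟩
      have h2 : n = (vs φ).length := by
        have h3 := congrArg List.length hG
        unfold inst adjMatrix at h3
        simpa using h3
      subst h2
      rwa [← adjMatrix_inj (G := G) (H := redG φ) hG]

end Pool.Agent.Results.MP_7e9d2b_lc.NPComplete
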